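import Pool.Agent.H89.FM.Targets2

/-!
# Cauchy's formula on a bidisc, for a sum of squares
-/

set_option autoImplicit false

namespace Pool.Agent.H12.FM

open Pool.Agent.H31.CN Pool.Agent.H89.FM
open scoped Real
open MeasureTheory

/-- Cauchy's formula for the square of a holomorphic function. -/
theorem cauchy_sq (g : ℂ → ℂ) (a x : ℂ) (R : ℝ) (hR : 0 < R)
    (hg : ∀ z ∈ Metric.closedBall a (2 * R), DifferentiableAt ℂ g z) (hx : ‖x - a‖ ≤ R) :
    ‖g x‖ ^ 2 ≤ π⁻¹ * ∫ θ in (0 : ℝ)..(2 * π), ‖g (circleMap a (2 * R) θ)‖ ^ 2 := by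
  have h2R : (0 : ℝ) < 2 * R := by positivity
  have hd : DiffContOnCl ℂ (fun z => g z ^ 2) (Metric.ball a (2 * R)) := by
    apply DifferentiableOn.diffContOnCl
    intro z hz
    rw [closure_ball _ h2R.ne'] at hz
    exact ((hg z hz).pow 2).differentiableWithinAt
  have hxb : x ∈ Metric.ball a (2 * R) := by
    rw [mem_ball_iff_norm]
    linarith
  have hc := hd.circleIntegral_sub_inv_smul hxb
  have hmem : ∀ θ : ℝ, circleMap a (2 * R) θ ∈ Metric.closedBall a (2 * R) := fun θ =>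
    circleMap_mem_closedBall a h2R.le θ
  have hgc : Continuous fun θ : ℝ => g (circleMap a (2 * R) θ) := by
    rw [continuous_iff_continuousAt]
    intro θ
    exact (hg _ (hmem θ)).continuousAt.comp (continuous_circleMap a (2 * R)).continuousAt
  have hdist : ∀ θ : ℝ, R ≤ ‖circleMap a (2 * R) θ - x‖ := by
    intro θ
    have h1 : ‖circleMap a (2 * R) θ - a‖ = 2 * R := by
      simp [circleMap, abs_of_pos hR]
    have h2 : ‖circleMap a (2 * R) θ - a‖ ≤ ‖circleMap a (2 * R) θ - x‖ + ‖x - a‖ := by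
      have h3 : circleMap a (2 * R) θ - a = (circleMap a (2 * R) θ - x) + (x - a) := by ring
      rw [h3]
      exact norm_add_le _ _
    linarith
  have hne : ∀ θ : ℝ, circleMap a (2 * R) θ - x ≠ 0 := by
    intro θ h
    have h1 := hdist θ
    rw [h, norm_zero] at h1
    linarith
  have hci : Continuous fun θ : ℝ => deriv (circleMap a (2 * R)) θ •
      ((circleMap a (2 * R) θ - x)⁻¹ • g (circleMap a (2 * R) θ) ^ 2) := by
    simp only [deriv_circleMap, smul_eq_mul]
    refine Continuous.mul ?_ (Continuous.mul ?_ (hgc.pow 2))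
    · exact (continuous_circleMap 0 (2 * R)).mul continuous_const
    · exact ((continuous_circleMap a (2 * R)).sub continuous_const).inv₀ hne
  have hb : ‖∮ z in C(a, 2 * R), (z - x)⁻¹ • g z ^ 2‖ ≤
      ∫ θ in (0 : ℝ)..(2 * π), 2 * ‖g (circleMap a (2 * R) θ)‖ ^ 2 := by
    refine (intervalIntegral.norm_integral_le_integral_norm Real.two_pi_pos.le).trans ?_
    refine intervalIntegral.integral_mono_on Real.two_pi_pos.le
      (hci.norm.intervalIntegrable _ _)
      ((continuous_const.mul (hgc.norm.pow 2)).intervalIntegrable _ _) ?_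
    intro θ _
    rw [norm_smul, norm_smul, norm_inv, norm_pow, deriv_circleMap, norm_mul, Complex.norm_I,
      mul_one, norm_circleMap_zero, abs_of_pos h2R]
    have h1 : ‖circleMap a (2 * R) θ - x‖⁻¹ ≤ R⁻¹ := inv_anti₀ hR (hdist θ)
    have h2 : 0 ≤ ‖g (circleMap a (2 * R) θ)‖ ^ 2 := by positivity
    calc 2 * R * (‖circleMap a (2 * R) θ - x‖⁻¹ * ‖g (circleMap a (2 * R) θ)‖ ^ 2)
        ≤ 2 * R * (R⁻¹ * ‖g (circleMap a (2 * R) θ)‖ ^ 2) := by gcongr
      _ = 2 * ‖g (circleMap a (2 * R) θ)‖ ^ 2 := by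
          field_simp
  rw [hc, intervalIntegral.integral_const_mul, norm_smul, norm_pow] at hb
  have h3 : ‖(2 * (π : ℂ) * Complex.I)‖ = 2 * π := by
    simp [abs_of_pos Real.pi_pos]
  rw [h3] at hb
  have h4 : π * ‖g x‖ ^ 2 ≤ ∫ θ in (0 : ℝ)..(2 * π), ‖g (circleMap a (2 * R) θ)‖ ^ 2 := by
    linarith
  calc ‖g x‖ ^ 2 = π⁻¹ * (π * ‖g x‖ ^ 2) := by
        field_simp
    _ ≤ _ := by
        have := Real.pi_pos
        gcongr

theorem pf_CAS : T_CAS := by
  intro S F U a b R K x y hR hU hsub hcont hdiff hxy hK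
  have h2R : (0 : ℝ) < 2 * R := by positivity
  have hma : ∀ θ : ℝ, circleMap a (2 * R) θ ∈ Metric.closedBall a (2 * R) := fun θ =>
    circleMap_mem_closedBall a h2R.le θ
  have hmb : ∀ θ : ℝ, circleMap b (2 * R) θ ∈ Metric.closedBall b (2 * R) := fun θ =>
    circleMap_mem_closedBall b h2R.le θ
  have hna : ∀ θ : ℝ, ‖circleMap a (2 * R) θ - a‖ = 2 * R := fun θ => by
    simp [circleMap, abs_of_pos hR]
  have hnb : ∀ θ : ℝ, ‖circleMap b (2 * R) θ - b‖ = 2 * R := fun θ => by
    simp [circleMap, abs_of_pos hR]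
  have hxa : ∀ i ∈ S, x i ∈ Metric.closedBall a (2 * R) := fun i hi => by
    rw [mem_closedBall_iff_norm]
    linarith [(hxy i hi).1]
  have hyb : ∀ i ∈ S, y i ∈ Metric.closedBall b (2 * R) := fun i hi => by
    rw [mem_closedBall_iff_norm]
    linarith [(hxy i hi).2]
  -- continuity
  have hc2 : ∀ i ∈ S, Continuous fun p : ℝ × ℝ =>
      ‖F i (circleMap a (2 * R) p.1) (circleMap b (2 * R) p.2)‖ ^ 2 := by
    intro i hi
    refine Continuous.pow (Continuous.norm ?_) 2
    have h1 : Continuous fun p : ℝ × ℝ =>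
        ((circleMap a (2 * R) p.1, circleMap b (2 * R) p.2) : ℂ × ℂ) :=
      ((continuous_circleMap a (2 * R)).comp continuous_fst).prodMk
        ((continuous_circleMap b (2 * R)).comp continuous_snd)
    exact (hcont i hi).comp_continuous h1 (fun p => hsub ⟨hma p.1, hmb p.2⟩)
  have hpair : ∀ θ : ℝ, Continuous fun φ : ℝ => ((θ, φ) : ℝ × ℝ) := fun θ =>
    Continuous.prodMk continuous_const continuous_id
  have hc2' : ∀ i ∈ S, ∀ θ : ℝ, Continuous fun φ : ℝ =>
      ‖F i (circleMap a (2 * R) θ) (circleMap b (2 * R) φ)‖ ^ 2 := by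
    intro i hi θ
    have h1 := Continuous.comp (hc2 i hi) (hpair θ)
    exact h1
  have hc1 : ∀ i ∈ S, Continuous fun θ : ℝ => ‖F i (circleMap a (2 * R) θ) (y i)‖ ^ 2 := by
    intro i hi
    refine Continuous.pow (Continuous.norm ?_) 2
    have h1 : Continuous fun θ : ℝ => ((circleMap a (2 * R) θ, y i) : ℂ × ℂ) :=
      (continuous_circleMap a (2 * R)).prodMk continuous_const
    exact (hcont i hi).comp_continuous h1 (fun θ => hsub ⟨hma θ, hyb i hi⟩)
  have hci : ∀ i ∈ S, Continuous fun θ : ℝ => ∫ φ in (0 : ℝ)..(2 * π),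
      ‖F i (circleMap a (2 * R) θ) (circleMap b (2 * R) φ)‖ ^ 2 := by
    intro i hi
    exact intervalIntegral.continuous_parametric_intervalIntegral_of_continuous' (hc2 i hi) 0
      (2 * π)
  have hpi := Real.pi_pos
  -- one term
  have hone : ∀ i ∈ S, ‖F i (x i) (y i)‖ ^ 2 ≤ π⁻¹ * (π⁻¹ * ∫ θ in (0 : ℝ)..(2 * π),
      ∫ φ in (0 : ℝ)..(2 * π), ‖F i (circleMap a (2 * R) θ) (circleMap b (2 * R) φ)‖ ^ 2) := by
    intro i hi
    have h1 := cauchy_sq (fun z => F i z (y i)) a (x i) R hR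
      (fun z hz => (hdiff i hi (z, y i) (hsub ⟨hz, hyb i hi⟩)).1) (hxy i hi).1
    refine h1.trans ?_
    refine mul_le_mul_of_nonneg_left ?_ (by positivity)
    rw [← intervalIntegral.integral_const_mul]
    refine intervalIntegral.integral_mono_on Real.two_pi_pos.le
      ((hc1 i hi).intervalIntegrable _ _)
      ((continuous_const.mul (hci i hi)).intervalIntegrable _ _) ?_
    intro θ _
    exact cauchy_sq (fun w => F i (circleMap a (2 * R) θ) w) b (y i) R hR
      (fun w hw => (hdiff i hi (circleMap a (2 * R) θ, w) (hsub ⟨hma θ, hw⟩)).2) (hxy i hi).2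
  have hsum : ∑ i ∈ S, ‖F i (x i) (y i)‖ ^ 2 ≤ π⁻¹ * (π⁻¹ * ∫ θ in (0 : ℝ)..(2 * π),
      ∫ φ in (0 : ℝ)..(2 * π),
        ∑ i ∈ S, ‖F i (circleMap a (2 * R) θ) (circleMap b (2 * R) φ)‖ ^ 2) := by
    refine (Finset.sum_le_sum hone).trans (le_of_eq ?_)
    rw [← Finset.mul_sum, ← Finset.mul_sum]
    congr 2
    have h1 : ∀ θ : ℝ, ∫ φ in (0 : ℝ)..(2 * π),
        ∑ i ∈ S, ‖F i (circleMap a (2 * R) θ) (circleMap b (2 * R) φ)‖ ^ 2 =
        ∑ i ∈ S, ∫ φ in (0 : ℝ)..(2 * π),
          ‖F i (circleMap a (2 * R) θ) (circleMap b (2 * R) φ)‖ ^ 2 := by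
      intro θ
      refine intervalIntegral.integral_finsetSum (fun i hi => ?_)
      exact (hc2' i hi θ).intervalIntegrable _ _
    simp only [h1]
    exact (intervalIntegral.integral_finsetSum
      (fun i hi => (hci i hi).intervalIntegrable _ _)).symm
  have hcs : Continuous fun p : ℝ × ℝ =>
      ∑ i ∈ S, ‖F i (circleMap a (2 * R) p.1) (circleMap b (2 * R) p.2)‖ ^ 2 :=
    continuous_finsetSum S hc2
  have hbd : ∫ θ in (0 : ℝ)..(2 * π), ∫ φ in (0 : ℝ)..(2 * π),
        ∑ i ∈ S, ‖F i (circleMap a (2 * R) θ) (circleMap b (2 * R) φ)‖ ^ 2 ≤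
      (2 * π) * ((2 * π) * K) := by
    have h1 : ∫ θ in (0 : ℝ)..(2 * π), ((2 * π) * K) = (2 * π) * ((2 * π) * K) := by
      rw [intervalIntegral.integral_const, smul_eq_mul]
      ring
    rw [← h1]
    refine intervalIntegral.integral_mono_on Real.two_pi_pos.le
      ((intervalIntegral.continuous_parametric_intervalIntegral_of_continuous' hcs 0
        (2 * π)).intervalIntegrable _ _) (continuous_const.intervalIntegrable _ _) ?_
    intro θ _
    have h2 : ∫ φ in (0 : ℝ)..(2 * π), K = (2 * π) * K := by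
      rw [intervalIntegral.integral_const, smul_eq_mul]
      ring
    rw [← h2]
    have h3 : Continuous fun φ : ℝ =>
        ∑ i ∈ S, ‖F i (circleMap a (2 * R) θ) (circleMap b (2 * R) φ)‖ ^ 2 :=
      continuous_finsetSum S (fun i hi => hc2' i hi θ)
    refine intervalIntegral.integral_mono_on Real.two_pi_pos.le
      (h3.intervalIntegrable _ _)
      (continuous_const.intervalIntegrable _ _) ?_
    intro φ _
    exact hK _ _ (hna θ) (hnb φ)
  have hK0 : 0 ≤ K :=
    (Finset.sum_nonneg (fun i _ => by positivity)).trans (hK _ _ (hna 0) (hnb 0))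
  refine hsum.trans ?_
  calc _ ≤ π⁻¹ * (π⁻¹ * ((2 * π) * ((2 * π) * K))) := by gcongr
    _ = 4 * K := by
        field_simp
        ring
    _ ≤ 16 * K := by linarith

end Pool.Agent.H12.FM
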